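import Pool.Agent.Q71.CO.Main

/-!
# MP_75613c_an: cohomology of typical simple cocycles, the negated form holds

For `G = Sp(1) = SU(2)` (unit quaternions), the 2-adic odometer `T x = x + 1` and a suitable
partition of `ℤ_2` into two measurable sets there is a nonempty open set `O` of simple functions any
two of which give measurably cohomologous extensions.
-/

open Quaternion MeasureTheory

namespace Pool.Agent.Results.MP_75613c_an.AttractingWordMap

/-- The group of unit quaternions, with the topology of the quaternions: `Sp(1) ≅ SU(2)`. -/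
abbrev G : Type := Metric.sphere (0 : ℍ[ℝ]) 1

/-- The `H`-extensions of `T` given by `φ` and `ψ` are measurably cohomologous. -/
def Cohomologous {X H : Type*} [MeasurableSpace X] [Group H] [MeasurableSpace H] (μ : Measure X)
    (T : X → X) (φ ψ : X → H) : Prop :=
  ∃ f : X → H, Measurable f ∧ ∀ᵐ x ∂μ, ψ x = f (T x) * φ x * (f x)⁻¹

theorem result [MeasurableSpace G] [BorelSpace G] [MeasurableSpace ℤ_[2]] [BorelSpace ℤ_[2]]
    (m : Measure G) [IsProbabilityMeasure m] [m.IsHaarMeasure] :
    CompactSpace G ∧ ConnectedSpace G ∧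
    ∃ (μ : Measure ℤ_[2]) (P : ℤ_[2] → Bool),
      IsProbabilityMeasure μ ∧ Ergodic (MeasurableEquiv.addRight (1 : ℤ_[2])) μ ∧ Measurable P ∧
      ∃ O : Set (Bool → G), IsOpen O ∧ O.Nonempty ∧
        0 < ((Measure.pi fun _ : Bool => m).prod (Measure.pi fun _ : Bool => m)) (O ×ˢ O) ∧
        ∀ φ ∈ O, ∀ ψ ∈ O,
          Cohomologous μ (MeasurableEquiv.addRight (1 : ℤ_[2])) (φ ∘ P) (ψ ∘ P) := by
  have hconn : ConnectedSpace G := by
    have h1 : 1 < Module.rank ℝ ℍ[ℝ] := by
      rw [Quaternion.rank_eq_four]; norm_num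
    exact isConnected_iff_connectedSpace.mp (isConnected_sphere h1 (0 : ℍ[ℝ]) zero_le_one)
  refine ⟨inferInstance, hconn, ?_⟩
  let μ : Measure ℤ_[2] := Measure.addHaarMeasure ⊤
  have hμ : IsProbabilityMeasure μ :=
    ⟨by simpa using Measure.addHaarMeasure_self (K₀ := (⊤ : TopologicalSpace.PositiveCompacts ℤ_[2]))⟩
  obtain ⟨O, hO, hne, h⟩ := Q71.CO.main μ
  refine ⟨μ, Q71.CO.letter, hμ, Q71.CO.ergodic_odo μ, Q71.CO.measurable_letter, O, hO, hne, ?_, ?_⟩
  · exact (hO.prod hO).measure_pos _ (hne.prod hne)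
  · intro φ hφ ψ hψ
    exact h φ hφ ψ hψ

end Pool.Agent.Results.MP_75613c_an.AttractingWordMap
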